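import Pool.Agent.T6.H20.MT.Defs
import Pool.Agent.R424.PT.Crit
import Pool.Agent.R424.TG.Red
import Pool.Agent.W282.SI.Good

/-!
The tropical criterion for the mixed Shimura variety `ℰ^q × Y(1)^n × G_m^k` (helper file).
-/

set_option autoImplicit false

namespace Pool.Agent.T6.H20.MT

open MvPolynomial Pool.Agent.R424.TG Pool.Agent.R424.PT H294ZP
open Pool.Agent.W282.ZP (zcl zdim idealOf Psi_spec Psi chi oneLat)
open Pool.Agent.Y152.RP.FamM (SpecialVariety rel_of_locus)
open Pool.Agent.Results.MP_a325a5_ag.RandomSubvarieties (curve xCoord Datum InSpecial InSubgroup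
  InSubtorus EndRing ActsByRational)

variable {κ I : Type} {n q k N : ℕ}

theorem xCoord_same {a b : ℂ} (P : (curve a b).Point) :
    xCoord P = Pool.Agent.Results.MP_28d749_ag.RandomMultisections.xCoord (a := a) (b := b) P := by
  rcases P with _ | ⟨x, y, h⟩
  · rfl
  · rfl

/-- the ring of endomorphisms of the other file -/
def toR {a b : ℂ} (E : EndRing a b) :
    Pool.Agent.Results.MP_28d749_ag.RandomMultisections.EndRing a b where
  O := E.O
  act := E.act
  quad := E.quad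
  rat := by
    intro c hc
    obtain ⟨u, w, h1, h2, h3, h4⟩ := E.rat c hc
    refine ⟨u, w, h1, h2, h3, fun P hP hw => ?_⟩
    have e1 : xCoord (a := a) (b := b) P =
      Pool.Agent.Results.MP_28d749_ag.RandomMultisections.xCoord (a := a) (b := b) P :=
        xCoord_same P
    have hw' : w.eval (xCoord (a := a) (b := b) P) ≠ 0 := by rw [e1]; exact hw
    have h5 := h4 P hP hw'
    have e2 : xCoord (a := a) (b := b) (E.act c P) =
      Pool.Agent.Results.MP_28d749_ag.RandomMultisections.xCoord (a := a) (b := b) (E.act c P) :=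
        xCoord_same _
    rw [e1, e2] at h5
    exact h5

theorem inSubgroup_same {a b : ℂ} {P : Fin q → (curve a b).Point} {ρ : ℕ} (h : InSubgroup P ρ) :
    Pool.Agent.Results.MP_28d749_ag.RandomMultisections.InSubgroup P ρ := by
  obtain ⟨E, c, hc, hrel⟩ := h
  exact ⟨toR E, c, hc, hrel⟩

/-- The lattice of the relations of a point in a subtorus. -/
theorem exists_lat {u : Fin k → ℂ} (hu : ∀ w, u w ≠ 0) {ρ : ℕ} (h : InSubtorus u ρ) :
    ∃ M : Submodule ℤ (Fin k → ℤ), Module.finrank ℤ M = ρ ∧ ∀ a ∈ M, chi u a = 1 := by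
  classical
  obtain ⟨a, ha, hau⟩ := h
  choose t ht hta using hau
  have hb : LinearIndependent ℤ fun i => (t i : ℤ) • a i := by
    rw [Fintype.linearIndependent_iff] at ha ⊢
    intro g hg i
    have h1 : ∑ i, (g i * t i) • a i = 0 := by
      rw [← hg]
      exact Finset.sum_congr rfl fun i _ => by rw [mul_smul]
    have h2 := ha _ h1 i
    have h3 : (t i : ℤ) ≠ 0 := by exact_mod_cast (ht i).ne'
    exact (mul_eq_zero.1 h2).resolve_right h3
  refine ⟨Submodule.span ℤ (Set.range fun i => (t i : ℤ) • a i), ?_, ?_⟩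
  · rw [finrank_span_eq_card hb, Fintype.card_fin]
  · have hle : Submodule.span ℤ (Set.range fun i => (t i : ℤ) • a i) ≤ oneLat u hu := by
      refine Submodule.span_le.2 ?_
      rintro _ ⟨i, rfl⟩
      change chi u ((t i : ℤ) • a i) = 1
      rw [chi, ← hta i, ← Finset.prod_pow]
      refine Finset.prod_congr rfl fun w _ => ?_
      rw [Pi.smul_apply, smul_eq_mul, mul_comm, zpow_mul, zpow_natCast]
    intro b hb
    exact hle hb

/-- A special subvariety as in the other files. -/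
noncomputable def toSV {m r : ℕ} (Z : SpecialDatum m r) : SpecialVariety (Int.castRingHom ℂ) m r where
  cls := Z.cls
  surj := Z.surj
  mat := Z.mat
  det_pos := Z.det_pos
  const := fun i => jj (Z.cm i)
  allowed := fun i => Or.inl ⟨Z.cm i, Z.isCM i, rfl⟩

theorem mem_toSV {m r : ℕ} {Z : SpecialDatum m r} {x : Fin m → ℂ} (hx : x ∈ Z.locus) :
    x ∈ (toSV Z).locus := by
  obtain ⟨z, hz⟩ := hx
  exact ⟨z, hz⟩

/-- Numbers which are units above all primes `p ≥ 5`. -/
theorem val_6912 {p : ℕ} (hp : p.Prime) (hp5 : 5 ≤ p) {V : ValuationSubring ℂ}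
    (hV : (p : ℂ) ∈ V.nonunits) : V.valuation (6912 : ℂ) = 1 := by
  have h1 := Pool.Agent.W466.ZP.int_unit V hp hV 6912 (by
    intro h
    have h2 : p ∣ 2 ^ 8 * 3 ^ 3 := by
      have h3 : (p : ℤ) ∣ ((2 ^ 8 * 3 ^ 3 : ℕ) : ℤ) := by
        push_cast
        exact h
      exact_mod_cast h3
    rcases (Nat.Prime.dvd_mul hp).1 h2 with h3 | h3
    · have h4 := (Nat.prime_dvd_prime_iff_eq hp Nat.prime_two).1 (hp.dvd_of_dvd_pow h3)
      omega
    · have h4 := (Nat.prime_dvd_prime_iff_eq hp Nat.prime_three).1 (hp.dvd_of_dvd_pow h3)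
      omega)
  exact_mod_cast h1

/-- **The bound for points**, with given places. -/
theorem point_bound {K : Type} [Field K] [Algebra K ℂ] (m : ℕ)
    (supp : κ → Finset ((Coord n q k ⊕ Fin N) →₀ ℕ))
    (c : κ → ((Coord n q k ⊕ Fin N) →₀ ℕ) → ℂ) (e : I → κ → ((Coord n q k ⊕ Fin N) →₀ ℕ) → ℕ)
    (hgen : GenericM m supp e) (p : I → ℕ) (hp : ∀ l, (p l).Prime) (hp5 : ∀ l, 5 ≤ p l)
    (hplace : ∀ l (σ : Type) (x : σ → ℂ), AlgebraicIndependent K x →
      ∀ n : σ → ℕ, (∀ t, 0 < n t) → ∀ k : σ → ℤ, ∃ V : ValuationSubring ℂ,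
        ((p l : ℕ) : ℂ) ∈ V.nonunits ∧
        (∀ t, V.valuation (x t) ^ n t = V.valuation ((p l : ℕ) : ℂ) ^ k t) ∧ RatVal V (p l) ∧
        ∀ j, ∀ β ∈ supp j, V.valuation (c j β) = V.valuation ((p l : ℕ) : ℂ) ^ e l j β)
    {z : Datum n q k} (hX : OnX supp c z) {ρ : ℕ} (hρ : InSpecial z ρ) (T : Finset (Coord n q k))
    (hT : AlgebraicIndependent K (fun i : T => z.coord i)) : T.card + ρ ≤ m := by
  classical
  by_contra hcon
  push Not at hcon
  obtain ⟨hdisc, hP0, y, hy⟩ := hX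
  obtain ⟨r, Z, ρ₁, ρ₂, hρr, hj, hE, hS⟩ := hρ
  obtain ⟨M, hM1, hM2⟩ := exists_lat z.unit hS
  obtain ⟨S, E, hTc, hind⟩ := exists_sets z hdisc T hT
  have hSind : AlgebraicIndependent K (fun i : S => xs z i) :=
    hind.comp Sum.inl Sum.inl_injective
  have hd : ∀ i, 0 < (Z.mat i).det.toNat := fun i => by
    have := Z.det_pos i
    omega
  have hrel : ∀ i j l, Z.cls i = some l → Z.cls j = some l →
      IsIntegral (Algebra.adjoin ℤ {xs z (Sum.inl i)}) (xs z (Sum.inl j)) ∧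
      Polynomial.eval₂ (Polynomial.aeval (xs z (Sum.inl i)) : Polynomial ℂ →ₐ[ℂ] ℂ).toRingHom
        (xs z (Sum.inl j)) (Psi ((Z.mat i).det.toNat * (Z.mat j).det.toNat)) = 0 := by
    intro i j l hi hj'
    have h5 := rel_of_locus (toSV Z) (mem_toSV hj) i j l hi hj'
    rw [show ((toSV Z).mat i).det = (Z.mat i).det from rfl,
      show ((toSV Z).mat j).det = (Z.mat j).det from rfl,
      Pool.Agent.R424.FD.toNat_mul' (Z.det_pos i) (Z.det_pos j)] at h5
    exact h5
  have hconst : ∀ i, Z.cls i = none → IsIntegral ℤ (z.j i) := by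
    intro i hi
    obtain ⟨w, hw⟩ := hj
    rw [(hw i).1 hi]
    exact singular_modulus_integral _ (Z.isCM i)
  obtain ⟨r', cls', M', hr', hcls', hV'⟩ := reduce (Λ := K) (F := K) Z.cls
    (fun i => (Z.mat i).det.toNat) (xs z) M (fun _ => 1) hd
    (fun i hi => (hconst i hi).isAlgebraic.extendScalars (by
      intro a b hab
      have h1 := congrArg (algebraMap K ℂ) hab
      simp only [eq_intCast, map_intCast] at h1
      exact_mod_cast h1))
    hrel (fun j => z.unit j) (fun j => ⟨1, by rw [map_one]⟩) (fun a ha => by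
      have h1 : W282.ZP.chi (fun _ : Fin k => (1 : ℂ)) a = 1 := by simp [chi]
      rw [h1]
      exact hM2 a ha) S hSind hSind
  have hrank := Pool.Agent.Y199.ZF.finrank_perp M'
  obtain ⟨l, τ, hτ⟩ := hgen r' cls' (fun i => (Z.mat i).det.toNat)
    (Pool.Agent.Y199.ZF.perp M') ρ₁ E hd (by omega)
  obtain ⟨V, hV, hVx, hrat, hVc⟩ := hplace l (S ⊕ E) _ hind
    (Sum.elim (fun _ => 1) fun i => (τ i).den)
    (by
      rintro (i | i)
      · exact one_pos
      · exact (τ i).den_pos) (Sum.elim (fun _ => 0) fun i => (τ i).num)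
  set v := V.valuation with hv
  have hp1 : v (p l : ℂ) < 1 := by rwa [ValuationSubring.mem_nonunits_iff] at hV
  have hpC : ((p l : ℕ) : ℂ) ≠ 0 := by exact_mod_cast (hp l).ne_zero
  have hp0 : v (p l : ℂ) ≠ 0 := (Valuation.ne_zero_iff _).2 hpC
  have hVS : ∀ i : S, v (xs z i) = 1 := by
    intro i
    have h1 := hVx (Sum.inl i)
    simp only [Sum.elim_inl, pow_one, zpow_zero] at h1
    exact h1
  have hVint : ∀ x : ℂ, IsIntegral ℤ x → v x ≤ 1 := fun x hx => Pool.Agent.Y645.MX.int_mem V hx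
  obtain ⟨hc1, hc2⟩ := hV' V (fun i hi => hVint _ (hconst i hi)) hVS (fun _ => map_one _)
  -- the values
  let Y : Coord n q k ⊕ Fin N → ℂ := Sum.elim z.coord y
  obtain ⟨a, ha, b, hb⟩ := common hrat Y
  have haQ : (0 : ℚ) < a := by exact_mod_cast ha
  let w : Coord n q k ⊕ Fin N → WithTop ℚ :=
    fun i => if Y i = 0 then ⊤ else ((b i / a : ℚ) : WithTop ℚ)
  have hw0 : ∀ i, Y i = 0 → w i = ⊤ := fun i h => if_pos h
  have hw1 : ∀ i, Y i ≠ 0 → w i = ((b i / a : ℚ) : WithTop ℚ) := fun i h => if_neg h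
  have htrop : ∀ j, TropAt (supp j) (e l j) w := fun j =>
    trop_point hp0 hp1 (supp j) (c j) (e l j) (fun β hβ => hVc j β hβ) Y (hy j) ha b hb w
      hw0 hw1
  have hwT : ∀ i ∈ E, w (Sum.inl (Sum.inr (Sum.inl i))) = (τ i : WithTop ℚ) := by
    intro i hi
    have h0 : Y (Sum.inl (Sum.inr (Sum.inl i))) ≠ 0 := by
      have h1 := hind.ne_zero (Sum.inr ⟨i, hi⟩)
      exact h1
    rw [hw1 _ h0]
    congr 1
    have h1 : v (Y (Sum.inl (Sum.inr (Sum.inl i)))) ^ (τ i).den = v (p l : ℂ) ^ (τ i).num :=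
      hVx (Sum.inr ⟨i, hi⟩)
    have h2 := hb _ h0
    have h3 : v (p l : ℂ) ^ ((τ i).num * a) =
        v (p l : ℂ) ^ (b (Sum.inl (Sum.inr (Sum.inl i))) * (τ i).den) := by
      rw [zpow_mul, zpow_mul, zpow_natCast, zpow_natCast, ← h1, ← h2, ← pow_mul, ← pow_mul,
        mul_comm]
    have h4 : (τ i).num * (a : ℤ) = b (Sum.inl (Sum.inr (Sum.inl i))) * (τ i).den :=
      le_antisymm ((zle hp0 hp1).1 h3.ge) ((zle hp0 hp1).1 h3.le)
    have h5 : ((τ i).num : ℚ) * a = b (Sum.inl (Sum.inr (Sum.inl i))) * (τ i).den := by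
      exact_mod_cast h4
    have hdQ : (0 : ℚ) < (τ i).den := by exact_mod_cast (τ i).den_pos
    rw [div_eq_iff haQ.ne']
    have h6 : ((τ i).num : ℚ) = τ i * (τ i).den := (Rat.mul_den_eq_num _).symm
    rw [h6] at h5
    have h7 : (τ i * a) * ((τ i).den : ℚ) = b (Sum.inl (Sum.inr (Sum.inl i))) * (τ i).den := by
      rw [← h5]
      ring
    exact (mul_right_cancel₀ hdQ.ne' h7).symm
  -- the values of the `j`-invariants
  let bj : Fin (n + 1) → ℤ := Fin.cons (3 * b (Sum.inl (Sum.inl 0)))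
    fun i => b (Sum.inl (Sum.inr (Sum.inr (Sum.inl i))))
  have hjv : ∀ i, (z.j i = 0 → jval w i = ⊤) ∧ (z.j i ≠ 0 →
      jval w i = ((bj i / a : ℚ) : WithTop ℚ) ∧ v (z.j i) ^ a = v (p l : ℂ) ^ bj i) := by
    intro i
    refine Fin.cases ?_ (fun i => ?_) i
    · have hj0 := j_zero z hdisc
      have hA : Y (Sum.inl (Sum.inl 0)) = z.A := rfl
      have e1 : jval w 0 = 3 • w (Sum.inl (Sum.inl 0)) := rfl
      have e2 : bj 0 = 3 * b (Sum.inl (Sum.inl 0)) := rfl
      refine ⟨fun h => ?_, fun h => ?_⟩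
      · rw [hj0] at h
        have h1 : z.A = 0 := by
          rcases mul_eq_zero.1 h with h2 | h2
          · norm_num at h2
          · exact pow_eq_zero_iff (by norm_num) |>.1 h2
        rw [e1, hw0 _ (hA.trans h1)]
        exact nsmul_top' (by norm_num)
      · have h1 : z.A ≠ 0 := by
          intro h2
          apply h
          rw [hj0, h2]
          norm_num
        have h2 := hb (Sum.inl (Sum.inl 0)) h1
        rw [e1, e2, hw1 (Sum.inl (Sum.inl 0)) h1]
        refine ⟨?_, ?_⟩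
        · rw [← WithTop.coe_nsmul]
          congr 1
          rw [nsmul_eq_mul]
          push_cast
          ring
        · rw [hj0, map_mul, val_6912 (hp l) (hp5 l) hV, one_mul, map_pow, ← pow_mul, mul_comm 3 a,
            pow_mul]
          rw [hA] at h2
          rw [h2, ← zpow_natCast, ← zpow_mul]
          congr 1
          push_cast
          ring
    · have e1 : jval w i.succ = w (Sum.inl (Sum.inr (Sum.inr (Sum.inl i)))) := rfl
      have e2 : bj i.succ = b (Sum.inl (Sum.inr (Sum.inr (Sum.inl i)))) := rfl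
      have e3 : z.j i.succ = Y (Sum.inl (Sum.inr (Sum.inr (Sum.inl i)))) := rfl
      rw [e1, e2, e3]
      exact ⟨fun h => hw0 _ h, fun h => ⟨hw1 _ h, hb _ h⟩⟩
  have hjsmall : ∀ i, v (z.j i) ≤ 1 → 0 ≤ jval w i := by
    intro i hi
    by_cases h0 : z.j i = 0
    · rw [(hjv i).1 h0]
      exact le_top
    · obtain ⟨h1, h2⟩ := (hjv i).2 h0
      have h3 : v (p l : ℂ) ^ bj i ≤ v (p l : ℂ) ^ (0 : ℤ) := by
        rw [← h2, zpow_zero]
        exact pow_le_one₀ zero_le hi
      have h4 := (zle hp0 hp1).1 h3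
      rw [h1]
      have h5 : (0 : ℚ) ≤ bj i / a := div_nonneg (by exact_mod_cast h4) haQ.le
      exact_mod_cast h5
  have hjbig : ∀ i, 1 < v (z.j i) → z.j i ≠ 0 ∧ bj i < 0 := by
    intro i hi
    have h0 : z.j i ≠ 0 := by
      intro h
      rw [h, map_zero] at hi
      exact absurd hi (not_lt.2 zero_le_one)
    refine ⟨h0, ?_⟩
    obtain ⟨h1, h2⟩ := (hjv i).2 h0
    by_contra h3
    push Not at h3
    have h4 := (zle hp0 hp1 (a := bj i) (b := 0)).2 h3
    rw [zpow_zero, ← h2] at h4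
    exact absurd (one_lt_pow₀ hi ha.ne') (not_lt.2 h4)
  have hcompat : CompatibleM cls' (fun i => (Z.mat i).det.toNat)
      (Pool.Agent.Y199.ZF.perp M') w := by
    refine ⟨fun i hi => hjsmall i (hc1 i hi), fun i j c' hi hj' => ?_, ?_⟩
    · obtain ⟨c'', hi'', hj''⟩ := hcls' i j c' hi hj'
      have hQ : 0 < (Z.mat i).det.toNat * (Z.mat j).det.toNat := Nat.mul_pos (hd i) (hd j)
      have hQ' : 0 < (Z.mat j).det.toNat * (Z.mat i).det.toNat := Nat.mul_pos (hd j) (hd i)
      have hspec := (Psi_spec hQ).2.2 ℂ V _ _ (hrel i j c'' hi'' hj'').2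
      have hspec' := (Psi_spec hQ').2.2 ℂ V _ _ (hrel j i c'' hj'' hi'').2
      by_cases hl : v (z.j i) ≤ 1
      · left
        exact ⟨hjsmall i hl, hjsmall j (hspec.1 hl)⟩
      · right
        push Not at hl
        have hl' : 1 < v (z.j j) := by
          by_contra h1
          push Not at h1
          exact absurd (hspec'.1 h1) (not_le.2 hl)
        obtain ⟨g, hg⟩ := hspec.2 hl
        have hg' : v (z.j j) ^ ((Z.mat i).det.toNat * (Z.mat j).det.toNat) =
            v (z.j i) ^ (g ^ 2) := hg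
        obtain ⟨hi0, hineg⟩ := hjbig i hl
        obtain ⟨hj0, hjneg⟩ := hjbig j hl'
        obtain ⟨hi1, hi2⟩ := (hjv i).2 hi0
        obtain ⟨hj1, hj2⟩ := (hjv j).2 hj0
        have h3 : v (p l : ℂ) ^ (bj j * ((Z.mat i).det.toNat * (Z.mat j).det.toNat : ℕ)) =
            v (p l : ℂ) ^ (bj i * (g ^ 2 : ℕ)) := by
          rw [zpow_mul, zpow_mul, ← hi2, ← hj2, zpow_natCast, zpow_natCast, pow_right_comm, hg',
            pow_right_comm]
        have h4 : bj j * ((Z.mat i).det.toNat * (Z.mat j).det.toNat : ℕ) = bj i * (g ^ 2 : ℕ) :=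
          le_antisymm ((zle hp0 hp1).1 h3.ge) ((zle hp0 hp1).1 h3.le)
        have h5 : (bj j : ℚ) * (((Z.mat i).det.toNat : ℚ) * (Z.mat j).det.toNat) =
            bj i * (g : ℚ) ^ 2 := by exact_mod_cast h4
        refine ⟨_, _, hi1, hj1, div_neg_of_neg_of_pos (by exact_mod_cast hineg) haQ,
          div_neg_of_neg_of_pos (by exact_mod_cast hjneg) haQ, ⟨(g : ℚ) * (bj i / a), ?_⟩⟩
        have h6 : ((Z.mat i).det.toNat : ℚ) * (Z.mat j).det.toNat * (bj i / a * (bj j / a)) =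
            ((bj j : ℚ) * (((Z.mat i).det.toNat : ℚ) * (Z.mat j).det.toNat)) * (bj i / a ^ 2) := by
          field_simp
        rw [h6, h5]
        field_simp
    · refine ⟨fun j => ((b (Sum.inl (Sum.inr (Sum.inr (Sum.inr j)))) : ℚ) / a), ?_, fun j =>
        hw1 (Sum.inl (Sum.inr (Sum.inr (Sum.inr j)))) (z.unit j)⟩
      rw [Pool.Agent.Y199.ZF.mem_perp]
      intro c' hc'
      have h1 := hc2 c' hc'
      have h2 : ∀ j, v (xs z (Sum.inr j)) ^ a =
          v (p l : ℂ) ^ b (Sum.inl (Sum.inr (Sum.inr (Sum.inr j)))) := fun j =>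
        hb (Sum.inl (Sum.inr (Sum.inr (Sum.inr j)))) (z.unit j)
      have h3 : v (p l : ℂ) ^ (∑ j, c' j * b (Sum.inl (Sum.inr (Sum.inr (Sum.inr j))))) =
          v (p l : ℂ) ^ (0 : ℤ) := by
        have h4 : ∀ s : Finset (Fin k),
            v (p l : ℂ) ^ (∑ j ∈ s, c' j * b (Sum.inl (Sum.inr (Sum.inr (Sum.inr j))))) =
            ∏ j ∈ s, v (p l : ℂ) ^ (c' j * b (Sum.inl (Sum.inr (Sum.inr (Sum.inr j))))) := by
          intro s
          induction s using Finset.induction_on with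
          | empty => simp
          | insert x s hx ih => rw [Finset.sum_insert hx, Finset.prod_insert hx, zpow_add₀ hp0, ih]
        rw [h4, zpow_zero]
        have h5 : (∏ j, v (xs z (Sum.inr j)) ^ c' j) ^ a = 1 := by rw [h1, one_pow]
        rw [← h5, ← Finset.prod_pow]
        refine Finset.prod_congr rfl fun j _ => ?_
        rw [mul_comm (c' j), zpow_mul, ← h2 j, ← zpow_natCast, ← zpow_natCast, ← zpow_mul,
          ← zpow_mul, mul_comm]
      have h4 : ∑ j, c' j * b (Sum.inl (Sum.inr (Sum.inr (Sum.inr j)))) = 0 :=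
        le_antisymm ((zle hp0 hp1).1 h3.ge) ((zle hp0 hp1).1 h3.le)
      have h5 : ∑ j, (c' j : ℚ) * b (Sum.inl (Sum.inr (Sum.inr (Sum.inr j)))) = 0 := by
        exact_mod_cast h4
      have h6 : ∑ j, (c' j : ℚ) * ((b (Sum.inl (Sum.inr (Sum.inr (Sum.inr j)))) : ℚ) / a) =
          (∑ j, (c' j : ℚ) * b (Sum.inl (Sum.inr (Sum.inr (Sum.inr j))))) / a := by
        rw [Finset.sum_div]
        exact Finset.sum_congr rfl fun j _ => (mul_div_assoc _ _ _).symm
      rw [h6, h5, zero_div]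
  -- the points of the elliptic curve
  obtain ⟨J, μ, x, hJ, hμa, hμb, hJx, hdis⟩ := hτ w htrop hwT hcompat
  have hxz : ∀ j ∈ J, Y (Sum.inl (Sum.inr (Sum.inl j))) ≠ 0 ∧
      (x j : ℚ) = b (Sum.inl (Sum.inr (Sum.inl j))) / a := by
    intro j hj
    have h1 := (hJx j hj).1
    by_cases h0 : Y (Sum.inl (Sum.inr (Sum.inl j))) = 0
    · rw [hw0 _ h0] at h1
      exact absurd h1.symm (WithTop.coe_ne_top)
    · rw [hw1 _ h0] at h1
      exact ⟨h0, (WithTop.coe_injective h1).symm⟩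
  have hxY : ∀ j, Y (Sum.inl (Sum.inr (Sum.inl j))) =
      Pool.Agent.Results.MP_28d749_ag.RandomMultisections.xCoord (a := z.A) (b := z.B) (z.P j) :=
    fun j => xCoord_same (z.P j)
  have h1 := rel_bound (hp l) hV hrat z.P (inSubgroup_same hE) ha
    (b (Sum.inl (Sum.inl 0))) (b (Sum.inl (Sum.inl 1)))
    (fun h => hb (Sum.inl (Sum.inl 0)) h) (fun h => hb (Sum.inl (Sum.inl 1)) h)
    μ (fun h => by
      rw [hw1 (Sum.inl (Sum.inl 0)) h] at hμa
      exact WithTop.coe_le_coe.1 hμa) (fun h => by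
      rw [hw1 (Sum.inl (Sum.inl 1)) h] at hμb
      exact WithTop.coe_le_coe.1 hμb) J (fun j => b (Sum.inl (Sum.inr (Sum.inl j))))
    (fun j hj => by
      rw [← hxY]
      exact ⟨(hxz j hj).1, hb _ (hxz j hj).1⟩)
    (fun j hj => by
      rw [← (hxz j hj).2]
      exact (hJx j hj).2) (fun i hi j hj hij N => by
      rw [← (hxz j hj).2, ← (hxz i hi).2]
      exact hdis i hi j hj hij N)
  omega

/-- From points to irreducible closed subsets. -/
theorem noAtypical_of_pt {K : Type} [Field K] [Algebra K ℂ] [Countable K] (m : ℕ)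
    (X : Datum n q k → Prop)
    (h : ∀ ρ z, X z → InSpecial z ρ → ∀ T : Finset (Coord n q k),
      AlgebraicIndependent K (fun i : T => z.coord i) → T.card + ρ ≤ m) : NoAtypicalM K m X := by
  intro ρ
  refine ⟨fun z hX hρ T hT => h ρ z hX hρ T hT, fun W g hW hcl hprime hg => ?_⟩
  obtain ⟨w, hwW, hw0, T, hT, hdim⟩ := Pool.Agent.W282.SI.generic_dim' K W hprime
    (β := Unit) (fun _ => g) fun _ => hg
  obtain ⟨z, hw, hX, hρ⟩ := hW w (hcl hwW) (hw0 ())
  rw [hw] at hT
  have h4 := h ρ z hX hρ T hT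
  calc zdim W + (ρ : Cardinal) ≤ (T.card : Cardinal) + (ρ : Cardinal) := by gcongr
    _ = ((T.card + ρ : ℕ) : Cardinal) := by push_cast; rfl
    _ ≤ (m : Cardinal) := by exact_mod_cast h4

/-- The number `c` has the order `e` at all places of `ℂ` above `p`. -/
def OrdAt (p : ℕ) (c : ℂ) (e : ℕ) : Prop :=
  ∀ V : ValuationSubring ℂ, (p : ℂ) ∈ V.nonunits → V.valuation c = V.valuation (p : ℂ) ^ e

/-- **The local criterion.** -/
theorem coreM (m : ℕ) (supp : κ → Finset ((Coord n q k ⊕ Fin N) →₀ ℕ))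
    (c : κ → ((Coord n q k ⊕ Fin N) →₀ ℕ) → ℂ) (e : I → κ → ((Coord n q k ⊕ Fin N) →₀ ℕ) → ℕ)
    (hgen : GenericM m supp e) (p : I → ℕ) (hp : ∀ l, (p l).Prime) (hp5 : ∀ l, 5 ≤ p l)
    (he : ∀ l j, ∀ β ∈ supp j, OrdAt (p l) (c j β) (e l j β)) :
    NoAtypicalM ℚ m (OnX supp c) := by
  refine noAtypical_of_pt m _ fun ρ z hX hρ T hT => ?_
  refine point_bound m supp c e hgen p hp hp5 (fun l σ x hx n' hn' k' => ?_) hX hρ T hT
  obtain ⟨V, hV, hVx, hrat⟩ := exists_val_prescribed x hx (hp l) n' hn' k'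
  exact ⟨V, hV, hVx, hrat, fun j β hβ => he l j β hβ V hV⟩

end Pool.Agent.T6.H20.MT
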