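import Pool.Agent.R424.TG.Loc
import Pool.Agent.Results.MP_a325a5_ag.RandomSubvarieties

/-!
Tropical criteria for the mixed Shimura variety `ℰ^q × Y(1)^n × G_m^k` (helper file): definitions and
algebraically independent coordinates.
-/

set_option autoImplicit false

namespace Pool.Agent.T6.H20.MT

open MvPolynomial Pool.Agent.R424.TG
open Pool.Agent.W282.ZP (zcl zdim idealOf)
open Pool.Agent.Results.MP_a325a5_ag.RandomSubvarieties (curve xCoord Datum InSpecial InSubgroup
  InSubtorus)

/-- The coordinates of a point of `ℰ^q × Y(1)^n × G_m^k`: the coefficients `A, B` of the elliptic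
curve, the abscissas `x(P_l)`, and `x_1, …, x_n, u_1, …, u_k`. -/
abbrev Coord (n q k : ℕ) : Type := Fin 2 ⊕ (Fin q ⊕ (Fin n ⊕ Fin k))

variable {κ I : Type} {n q k N : ℕ}

/-- The set `X` of a system of equations `∑_β c j β z^β = 0` in `ℰ^q × Y(1)^n × G_m^k`: the points which
are represented by data `z` with `4 A³ + 27 B² = 1` (every point is represented by such data), with
all `P_l` different from the origin, such that for some `y ∈ ℂ^N` the equations hold for the
coordinates `(A, B, x(P_l), x_i, u_w, y)`. -/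
def OnX (supp : κ → Finset ((Coord n q k ⊕ Fin N) →₀ ℕ))
    (c : κ → ((Coord n q k ⊕ Fin N) →₀ ℕ) → ℂ) (z : Datum n q k) : Prop :=
  4 * z.A ^ 3 + 27 * z.B ^ 2 = 1 ∧ (∀ l, z.P l ≠ 0) ∧
    ∃ y : Fin N → ℂ, ∀ j, ∑ β ∈ supp j, c j β *
      ∏ i, (Sum.elim z.coord y : Coord n q k ⊕ Fin N → ℂ) i ^ β i = 0

/-- `X` has no intersection of too large dimension with the special subvarieties, if it is regarded as
a set of dimension `m`: for every `ρ` every point of `X` which is in a special subvariety of
codimension at least `ρ` has transcendence degree at most `m - ρ` over `K`, and every irreducible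
closed set `W` of vectors, such that its points outside of some hypersurface `g = 0`, which does not
contain `W`, are the vectors of coordinates of points of this kind, has dimension at most `m - ρ`. -/
def NoAtypicalM (K : Type) [Field K] [Algebra K ℂ] (m : ℕ) (X : Datum n q k → Prop) : Prop :=
  ∀ ρ : ℕ,
    (∀ z, X z → InSpecial z ρ → ∀ T : Finset (Coord n q k),
      AlgebraicIndependent K (fun i : T => z.coord i) → T.card + ρ ≤ m) ∧
    ∀ (W : Set (Coord n q k → ℂ)) (g : MvPolynomial (Coord n q k) ℂ),
      (∀ w ∈ W, eval w g ≠ 0 → ∃ z : Datum n q k, w = z.coord ∧ X z ∧ InSpecial z ρ) →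
      zcl W ⊆ W → (idealOf W).IsPrime → g ∉ idealOf W →
      zdim W + (ρ : Cardinal) ≤ (m : Cardinal)

/-- The values of the coordinates of `Y(1)^(n+1)`: `3 w(A)` for the `j`-invariant `6912 A³`, and
`w(x_i)`. -/
def jval (w : Coord n q k ⊕ Fin N → WithTop ℚ) : Fin (n + 1) → WithTop ℚ :=
  Fin.cons (3 • w (Sum.inl (Sum.inl 0))) fun i => w (Sum.inl (Sum.inr (Sum.inr (Sum.inl i))))

/-- A point `w` with rational or infinite coordinates is compatible with the special subvarieties whose
image in `Y(1)^(n+1) × G_m^k` has the type `(cls, d, L)`: the values of the constant coordinates of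
`Y(1)^(n+1)` are not negative, the values of the coordinates in one class are both not negative or
both negative with the ratio `d i * d j` up to a square, and the torus coordinates are in `L`. -/
def CompatibleM {r : ℕ} (cls : Fin (n + 1) → Option (Fin r)) (d : Fin (n + 1) → ℕ)
    (L : Submodule ℚ (Fin k → ℚ)) (w : Coord n q k ⊕ Fin N → WithTop ℚ) : Prop :=
  (∀ i, cls i = none → 0 ≤ jval w i) ∧
  (∀ i j c, cls i = some c → cls j = some c → (0 ≤ jval w i ∧ 0 ≤ jval w j) ∨
    ∃ u v : ℚ, jval w i = (u : WithTop ℚ) ∧ jval w j = (v : WithTop ℚ) ∧ u < 0 ∧ v < 0 ∧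
      IsSquare ((d i : ℚ) * d j * (u * v))) ∧
  ∃ u ∈ L, ∀ j, w (Sum.inl (Sum.inr (Sum.inr (Sum.inr j)))) = ((u j : ℚ) : WithTop ℚ)

/-- There are more than `q - ρ` of the points `P_j` near to the origin of the curve,
`w(x(P_j)) + 1/2 < μ` with `2 μ ≤ w(A)`, `3 μ ≤ w(B)`, such that the differences of the values of their
abscissas are not integers. -/
def IndependentM (ρ : ℕ) (w : Coord n q k ⊕ Fin N → WithTop ℚ) : Prop :=
  ∃ (J : Finset (Fin q)) (μ : ℚ) (x : Fin q → ℚ), q < J.card + ρ ∧
    ((2 * μ : ℚ) : WithTop ℚ) ≤ w (Sum.inl (Sum.inl 0)) ∧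
    ((3 * μ : ℚ) : WithTop ℚ) ≤ w (Sum.inl (Sum.inl 1)) ∧
    (∀ j ∈ J, w (Sum.inl (Sum.inr (Sum.inl j))) = (x j : WithTop ℚ) ∧ x j + 1 / 2 < μ) ∧
    ∀ i ∈ J, ∀ j ∈ J, i ≠ j → ∀ k : ℤ, x i - x j ≠ k

/-- The condition on the tropicalizations: for every type `(cls, d, L)` (of dimension `r + dim L` and
codimension `n + 1 + k - r - dim L`), every `ρ` and every set `T` of points such that the sum of this
codimension, `ρ` and `|T|` is larger than `m` there is a place `l` and there are values `τ` for the
abscissas of the points in `T` such that all compatible points of the tropicalization at `l` with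
these values are `ρ`-independent. -/
def GenericM (m : ℕ) (supp : κ → Finset ((Coord n q k ⊕ Fin N) →₀ ℕ))
    (e : I → κ → ((Coord n q k ⊕ Fin N) →₀ ℕ) → ℕ) : Prop :=
  ∀ (r : ℕ) (cls : Fin (n + 1) → Option (Fin r)) (d : Fin (n + 1) → ℕ)
    (L : Submodule ℚ (Fin k → ℚ)) (ρ : ℕ) (T : Finset (Fin q)), (∀ i, 0 < d i) →
    r + Module.finrank ℚ L + m < n + 1 + k + ρ + T.card →
      ∃ (l : I) (τ : Fin q → ℚ), ∀ w : Coord n q k ⊕ Fin N → WithTop ℚ,
        (∀ j, TropAt (supp j) (e l j) w) →
        (∀ i ∈ T, w (Sum.inl (Sum.inr (Sum.inl i))) = (τ i : WithTop ℚ)) →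
        CompatibleM cls d L w → IndependentM ρ w

/-- The coordinates of the image in `Y(1)^(n+1) × G_m^k`. -/
noncomputable def xs (z : Datum n q k) : Fin (n + 1) ⊕ Fin k → ℂ := Sum.elim z.j z.u

theorem j_zero (z : Datum n q k) (hz : 4 * z.A ^ 3 + 27 * z.B ^ 2 = 1) :
    z.j 0 = 6912 * z.A ^ 3 := by
  change 6912 * z.A ^ 3 / (4 * z.A ^ 3 + 27 * z.B ^ 2) = _
  rw [hz, div_one]

theorem j_succ (z : Datum n q k) (i : Fin n) : z.j i.succ = z.x i := rfl

theorem ofNat_ne {K : Type} [Field K] [Algebra K ℂ] {a : ℕ} (ha : a ≠ 0) : (a : K) ≠ 0 := by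
  intro h
  have h1 := congrArg (algebraMap K ℂ) h
  rw [map_natCast, map_zero] at h1
  exact ha (by exact_mod_cast h1)

/-- Algebraically independent coordinates of a point can be exchanged against as many coordinates of
the image in `Y(1)^(n+1) × G_m^k` and abscissas. -/
theorem exists_sets {K : Type} [Field K] [Algebra K ℂ] (z : Datum n q k)
    (hz : 4 * z.A ^ 3 + 27 * z.B ^ 2 = 1) (T : Finset (Coord n q k))
    (hT : AlgebraicIndependent K (fun i : T => z.coord i)) :
    ∃ (S : Finset (Fin (n + 1) ⊕ Fin k)) (E : Finset (Fin q)), T.card = S.card + E.card ∧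
      AlgebraicIndependent K (Sum.elim (fun i : S => xs z i) (fun l : E => xCoord (z.P l)) :
        S ⊕ E → ℂ) := by
  classical
  let φ : Coord n q k → (Fin (n + 1) ⊕ Fin k) ⊕ Fin q :=
    Sum.elim (fun _ => Sum.inl (Sum.inl 0))
      (Sum.elim Sum.inr (Sum.elim (fun i => Sum.inl (Sum.inl i.succ)) fun w => Sum.inl (Sum.inr w)))
  let y : (Fin (n + 1) ⊕ Fin k) ⊕ Fin q → ℂ := Sum.elim (xs z) fun l => xCoord (z.P l)
  let h : Coord n q k → Polynomial K := Sum.elim
    ![Polynomial.C ((6912 : ℕ) : K) * Polynomial.X ^ 3,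
      Polynomial.C (-((46656 : ℕ) : K)) * Polynomial.X ^ 2 + Polynomial.C ((1728 : ℕ) : K)]
    fun _ => Polynomial.X
  have hy : ∀ i, y (φ i) = Polynomial.aeval (z.coord i) (h i) := by
    rintro (i | (i | (i | i)))
    · fin_cases i
      · change z.j 0 = Polynomial.aeval z.A
          (Polynomial.C ((6912 : ℕ) : K) * Polynomial.X ^ 3)
        rw [j_zero z hz]
        simp only [map_mul, map_pow, Polynomial.aeval_X, map_natCast]
        norm_num
      · change z.j 0 = Polynomial.aeval z.B
          (Polynomial.C (-((46656 : ℕ) : K)) * Polynomial.X ^ 2 + Polynomial.C ((1728 : ℕ) : K))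
        rw [j_zero z hz]
        simp only [map_add, map_mul, map_pow, Polynomial.aeval_X, map_neg, map_natCast]
        push_cast
        linear_combination 1728 * hz
    · change xCoord (z.P i) = Polynomial.aeval (xCoord (z.P i)) (Polynomial.X : Polynomial K)
      rw [Polynomial.aeval_X]
    · change z.x i = Polynomial.aeval (z.x i) (Polynomial.X : Polynomial K)
      rw [Polynomial.aeval_X]
    · change z.u i = Polynomial.aeval (z.u i) (Polynomial.X : Polynomial K)
      rw [Polynomial.aeval_X]
  have hh : ∀ i, Transcendental K (h i) := by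
    have hX : Transcendental K (Polynomial.X : Polynomial K) := Polynomial.transcendental_X K
    rintro (i | (i | (i | i)))
    · fin_cases i
      · refine Polynomial.transcendental _ ?_ ?_
        · change (Polynomial.C ((6912 : ℕ) : K) * Polynomial.X ^ 3).natDegree ≠ 0
          rw [Polynomial.natDegree_C_mul_X_pow 3 _ (ofNat_ne (by norm_num))]
          norm_num
        · change (Polynomial.C ((6912 : ℕ) : K) * Polynomial.X ^ 3).leadingCoeff ∈ _
          rw [Polynomial.leadingCoeff_C_mul_X_pow]
          exact mem_nonZeroDivisors_of_ne_zero (ofNat_ne (by norm_num))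
      · have hne : (-((46656 : ℕ) : K)) ≠ 0 := neg_ne_zero.2 (ofNat_ne (by norm_num))
        have hdeg : (Polynomial.C (-((46656 : ℕ) : K)) * Polynomial.X ^ 2 +
            Polynomial.C ((1728 : ℕ) : K)).natDegree = 2 := by
          rw [Polynomial.natDegree_add_C, Polynomial.natDegree_C_mul_X_pow 2 _ hne]
        refine Polynomial.transcendental _ ?_ ?_
        · change (Polynomial.C (-((46656 : ℕ) : K)) * Polynomial.X ^ 2 +
            Polynomial.C ((1728 : ℕ) : K)).natDegree ≠ 0
          rw [hdeg]
          norm_num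
        · change (Polynomial.C (-((46656 : ℕ) : K)) * Polynomial.X ^ 2 +
            Polynomial.C ((1728 : ℕ) : K)).leadingCoeff ∈ _
          refine mem_nonZeroDivisors_of_ne_zero (Polynomial.leadingCoeff_ne_zero.2 fun h0 => ?_)
          rw [h0, Polynomial.natDegree_zero] at hdeg
          norm_num at hdeg
    · exact hX
    · exact hX
    · exact hX
  have hind : AlgebraicIndependent K (fun i : T => y (φ i)) := by
    have h1 := hT.polynomial_aeval_of_transcendental (f := fun i : T => h i) fun i => hh i
    convert h1 using 1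
    funext i
    exact hy i
  -- not both coefficients are in `T`
  have hAB : ¬ ((Sum.inl 0 : Coord n q k) ∈ T ∧ (Sum.inl 1 : Coord n q k) ∈ T) := by
    rintro ⟨ha, hb⟩
    let f : MvPolynomial T K := C ((4 : ℕ) : K) * X ⟨Sum.inl 0, ha⟩ ^ 3 +
      C ((27 : ℕ) : K) * X ⟨Sum.inl 1, hb⟩ ^ 2 - 1
    have h1 : aeval (fun i : T => z.coord i) f = 0 := by
      simp only [f, map_sub, map_add, map_mul, map_pow, aeval_X, map_natCast, map_one]
      change ((4 : ℕ) : ℂ) * z.A ^ 3 + ((27 : ℕ) : ℂ) * z.B ^ 2 - 1 = 0
      push_cast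
      rw [hz, sub_self]
    have h2 : f = 0 := hT (by rw [h1, map_zero])
    have h3 := congrArg constantCoeff h2
    simp [f] at h3
  have hφ : ∀ i ∈ T, ∀ j ∈ T, φ i = φ j → i = j := by
    intro i hi j hj hij
    rcases i with a | (a | (a | a)) <;> rcases j with b | (b | (b | b)) <;>
      simp only [φ, Sum.elim_inl, Sum.elim_inr] at hij
    · fin_cases a <;> fin_cases b
      · rfl
      · exact absurd ⟨hi, hj⟩ hAB
      · exact absurd ⟨hj, hi⟩ hAB
      · rfl
    all_goals first
      | (have h1 := Sum.inr_injective hij; rw [h1]; done)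
      | (have h1 := Fin.succ_injective _ (Sum.inl_injective (Sum.inl_injective hij)); rw [h1]; done)
      | (have h1 := Sum.inr_injective (Sum.inl_injective hij); rw [h1]; done)
      | exact absurd (Sum.inl_injective (Sum.inl_injective hij)) (Fin.succ_ne_zero _)
      | exact absurd (Sum.inl_injective (Sum.inl_injective hij)).symm (Fin.succ_ne_zero _)
      | (exfalso; simp at hij; done)
  let T' : Finset ((Fin (n + 1) ⊕ Fin k) ⊕ Fin q) := T.image φ
  have hcard : T'.card = T.card := Finset.card_image_of_injOn fun i hi j hj => hφ i hi j hj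
  refine ⟨T'.toLeft, T'.toRight, ?_, ?_⟩
  · rw [← hcard, T'.card_toLeft_add_card_toRight]
  · have hpre : ∀ s : T'.toLeft ⊕ T'.toRight, ∃ t : T,
        φ t = Sum.elim (fun i : T'.toLeft => (Sum.inl (i : Fin (n + 1) ⊕ Fin k) :
          (Fin (n + 1) ⊕ Fin k) ⊕ Fin q)) (fun l : T'.toRight => Sum.inr (l : Fin q)) s := by
      rintro (s | s)
      · obtain ⟨t, ht, hts⟩ := Finset.mem_image.1 (Finset.mem_toLeft.1 s.2)
        exact ⟨⟨t, ht⟩, hts⟩
      · obtain ⟨t, ht, hts⟩ := Finset.mem_image.1 (Finset.mem_toRight.1 s.2)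
        exact ⟨⟨t, ht⟩, hts⟩
    choose f hf using hpre
    have hfinj : Function.Injective f := by
      intro s s' hss
      have h1 := hf s
      rw [hss, hf s'] at h1
      rcases s with s | s <;> rcases s' with s' | s'
      · simp only [Sum.elim_inl] at h1
        rw [Subtype.ext (Sum.inl_injective h1).symm]
      · simp at h1
      · simp at h1
      · simp only [Sum.elim_inr] at h1
        rw [Subtype.ext (Sum.inr_injective h1).symm]
    have h1 := hind.comp f hfinj
    convert h1 using 1
    funext s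
    rcases s with s | s
    · simp only [Function.comp_apply, hf, Sum.elim_inl, y]
    · simp only [Function.comp_apply, hf, Sum.elim_inr, y]

end Pool.Agent.T6.H20.MT
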