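import Pool.Agent.R424.TG.Main
import Pool.Agent.R424.TG.Gauss

/-!
Members of bounded degree of the families of subvarieties of `Y(1)^n × G_m^k` (helper file).
-/

set_option autoImplicit false

namespace Pool.Agent.T6.H20.MT

open H294ZP UpperHalfPlane MvPolynomial Pool.Agent.W282.ZP Pool.Agent.Y152.BD
  Pool.Agent.Y152.RP Pool.Agent.Y152.RP.FamM Pool.Agent.R424.TG

theorem degT (K : Subfield ℂ) [Countable K] (κ : Type) [Finite κ] (n k₀ N m d : ℕ)
    (P : κ → MvPolynomial ((Fin n ⊕ Fin k₀) ⊕ Fin N) (Polynomial K)) (D : Finset ℚ)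
    (Γ : Finset ℂ) (hΓ : ∀ γ ∈ Γ, IsAlgebraic K γ)
    (hgen : Generic m (2 * d + 1) P (D.image fun a : ℚ => (a : ℂ))) :
    {t : ℂ | DegLE d t ∧
      ¬ NoAtypical (algebraMap (Algebra.adjoin ℤ (Γ : Set ℂ)) ℂ) K m (member t P)}.Finite := by
  classical
  let k := algebraicClosure K ℂ
  have hcl : IsAlgClosure K k := inferInstance
  have hac : IsAlgClosed k := hcl.isAlgClosed
  have hc0k : CharZero k := inferInstance
  have hmem : ∀ z ∈ Γ, z ∈ algebraicClosure K ℂ := fun z hz =>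
    mem_algebraicClosure_iff'.2 (hΓ z hz).isIntegral
  obtain ⟨Γ', hΓ'f, hΓ'⟩ : ∃ Γ' : Set k, Γ'.Finite ∧ algebraMap k ℂ '' Γ' = (Γ : Set ℂ) := by
    refine ⟨algebraMap k ℂ ⁻¹' (Γ : Set ℂ),
      Γ.finite_toSet.preimage (algebraMap k ℂ).injective.injOn, ?_⟩
    rw [Set.image_preimage_eq_iff]
    intro z hz
    exact ⟨⟨z, hmem z hz⟩, rfl⟩
  have hrat : ∀ a : ℚ, algebraMap k ℂ ((a : ℚ) : k) = (a : ℂ) := fun a => map_ratCast _ _
  let D' : Finset k := D.image fun a : ℚ => (a : k)
  have hD' : ∀ a ∈ D, ((a : ℚ) : k) ∈ D' := fun a ha => Finset.mem_image_of_mem _ ha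
  obtain ⟨W₀, hW₀, hDW, hcore⟩ := core P m D' Γ' hΓ'f
  have hinjC : Function.Injective fun a : ℚ => (a : ℂ) := Rat.cast_injective
  have hDfin : ((D.image fun a : ℚ => (a : ℂ) : Finset ℂ) : Set ℂ).Finite := Finset.finite_toSet _
  have hcardI : (D.image fun a : ℚ => (a : ℂ)).card = D.card :=
    Finset.card_image_of_injective _ hinjC
  -- the criterion
  have main : ∀ t : ℂ, t ∉ (D.image fun a : ℚ => (a : ℂ)) →
      (∀ (r : ℕ) (cls : Fin n → Option (Fin r)) (d : Fin n → ℕ)
        (L : Submodule ℚ (Fin k₀ → ℚ)), (∀ i, 0 < d i) → r + Module.finrank ℚ L + m < n + k₀ →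
        ∃ a ∈ D, (∃ V : ValuationSubring ℂ, V.valuation (t - (a : ℂ)) < 1 ∧
          ∀ z ∈ W₀, algebraMap k ℂ z ∈ V) ∧ t ∈ k ∧
          ∀ w ∈ Trop ((a : ℚ) : ℂ) P, ¬ Compatible cls d L w) →
      NoAtypical (algebraMap (Algebra.adjoin ℤ (Γ : Set ℂ)) ℂ) K m (member t P) := by
    intro t htD hgood
    refine noAtypical_of_points K _ (fun x hx => hx.1) ?_
    have h1 := hcore t K le_rfl (fun α hα h => htD (by
      obtain ⟨a, ha, rfl⟩ := Finset.mem_image.1 hα
      rw [h, hrat]
      exact Finset.mem_image_of_mem _ ha)) (fun r cls d L hd hr => by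
      obtain ⟨a, ha, ⟨V, hV1, hV2⟩, htk, hno⟩ := hgood r cls d L hd hr
      refine ⟨((a : ℚ) : k), hD' a ha, fun ρ x hx => ?_, ?_⟩
      · obtain ⟨V', h1, h2, h3⟩ := gauss_ext (k := k) V x (hx.extendScalars k)
        refine ⟨V', ?_, fun z hz => h1 z (hV2 z hz), h3⟩
        have h4 : algebraMap k ℂ ((⟨t, htk⟩ : k) - ((a : ℚ) : k)) = t - (a : ℂ) := by
          rw [map_sub, hrat]
          rfl
        have h5 := h2 ((⟨t, htk⟩ : k) - ((a : ℚ) : k)) (by rw [h4]; exact hV1)
        rw [h4] at h5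
        rw [hrat]
        exact h5
      · rw [hrat]
        exact hno)
    rw [hΓ'] at h1
    exact h1
  by_cases hM : 2 * d ≤ D.card
  · -- the numbering of `D`
    let α : Fin D.card → ℚ := fun i => D.orderEmbOfFin rfl i
    have hα : Function.Injective α := (D.orderEmbOfFin rfl).injective
    have hαD : ∀ i, α i ∈ D := fun i => Finset.orderEmbOfFin_mem D rfl i
    obtain ⟨D₀, hD₀⟩ := exists_places (k := k) (L := D.card - 2 * d) W₀ hW₀ α
    refine ((finite_badD D₀ d (L := D.card - 2 * d) (by omega) α hα).union hDfin).subset ?_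
    rintro t ⟨htd, ht⟩
    by_contra hcon
    rw [Set.mem_union, not_or] at hcon
    obtain ⟨h1, h2⟩ := hcon
    have h4 : ∃ f : Fin (D.card - 2 * d) → Fin D.card, Function.Injective f ∧
        ∃ G : Polynomial ℤ, Irreducible G ∧ Polynomial.aeval t G = 0 ∧
        ∀ l, ∃ p : ℕ, p.Prime ∧ D₀ < p ∧ (p : ℤ) ∣ Nv G (α (f l)) := by
      by_contra h
      exact h1 ⟨htd, h⟩
    obtain ⟨f, hf, G, hG, hGt, hp⟩ := h4
    have htk : t ∈ k := by
      obtain ⟨F, hF0, -, hFt⟩ := htd
      refine mem_algebraicClosure_iff.2 ?_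
      have h5 : IsAlgebraic ℤ t := ⟨F, hF0, hFt⟩
      exact h5.extendScalars (R := ℤ) (S := K) (by
        intro a b hab
        simp only [eq_intCast] at hab
        exact_mod_cast hab)
    refine ht (main t h2 fun r cls d' L hd hr => ?_)
    obtain ⟨I, hI, hIc, hno⟩ := hgen r cls d' L hd hr
    -- one of the good parameters is near
    have hex : ∃ l, ((α (f l) : ℚ) : ℂ) ∈ I := by
      by_contra hall
      push Not at hall
      let J : Finset ℂ := Finset.univ.image fun l => ((α (f l) : ℚ) : ℂ)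
      have hJc : J.card = D.card - 2 * d := by
        have hinjJ : Function.Injective fun l => ((α (f l) : ℚ) : ℂ) := fun x y h =>
          hf (hα (hinjC h))
        rw [Finset.card_image_of_injective _ hinjJ, Finset.card_univ, Fintype.card_fin]
      have hdisj : Disjoint I J := by
        rw [Finset.disjoint_left]
        intro z hz hzJ
        obtain ⟨l, -, rfl⟩ := Finset.mem_image.1 hzJ
        exact hall l hz
      have hsub : I ∪ J ⊆ D.image fun a : ℚ => (a : ℂ) := by
        refine Finset.union_subset hI fun z hz => ?_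
        obtain ⟨l, -, rfl⟩ := Finset.mem_image.1 hz
        exact Finset.mem_image_of_mem _ (hαD _)
      have h5 := Finset.card_le_card hsub
      rw [Finset.card_union_of_disjoint hdisj, hcardI] at h5
      omega
    obtain ⟨l, hl⟩ := hex
    obtain ⟨V, hV1, hV2, -⟩ := hD₀ ⟨t, htk⟩ f G hG hGt hp Empty (Empty.elim : Empty → ℂ)
      (algebraicIndependent_empty_type_iff.2 (algebraMap k ℂ).injective) l
    refine ⟨α (f l), hαD _, ⟨V, ?_, hV2⟩, htk, hno _ hl⟩
    rw [map_sub, hrat] at hV1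
    exact hV1
  · refine hDfin.subset ?_
    rintro t ⟨-, ht⟩
    by_contra h2
    refine ht (main t h2 fun r cls d' L hd hr => ?_)
    obtain ⟨I, hI, hIc, -⟩ := hgen r cls d' L hd hr
    have h5 := Finset.card_le_card hI
    rw [hcardI] at h5
    omega

end Pool.Agent.T6.H20.MT
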